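import Pool.Agent.H.MP_387a72_lc.G

namespace Pool.Agent.Results.MP_387a72_lc.Reduction

abbrev LO : Type := {x : ℕ × ℕ → Bool // IsLinearOrder ℕ fun m n => x (m, n) = true}

def CvxEmb (x y : LO) : Prop :=
  ∃ f : ℕ → ℕ, (∀ m n, x.1 (m, n) = y.1 (f m, f n)) ∧
    ∀ m n k, y.1 (f m, k) = true → y.1 (k, f n) = true → k ∈ Set.range f

def Iso (x y : LO) : Prop := ∃ f : ℕ ≃ ℕ, ∀ m n, x.1 (m, n) = y.1 (f m, f n)

theorem result : ∃ h : LO → LO, @Measurable LO LO (borel LO) (borel LO) h ∧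
    ∀ x y : LO, (CvxEmb x y ∧ CvxEmb y x) ↔ Iso (h x) (h y) := by
  obtain ⟨h, h1, h2⟩ := Pool.Agent.H.MP_387a72_lc.main
  refine ⟨h, ?_, fun x y => ?_⟩
  · rw [← BorelSpace.measurable_eq (α := LO)]
    exact h1
  · exact (and_congr (Pool.Agent.H.MP_387a72_lc.cvx_iff x y)
      (Pool.Agent.H.MP_387a72_lc.cvx_iff y x)).trans (h2 x y)

end Pool.Agent.Results.MP_387a72_lc.Reduction
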